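import Pool.Agent.Lib.MP_abcfcd_nt.StMain

/-!
# The maximal partition with a nonzero Fourier coefficient is not unique (global case)

Full negative answer to Q1. `F = ℚ`, `G` is the quasi-split unitary group in seven variables of
the extension `ℚ(√-7) / ℚ`: `U R` is the unitary group of the antidiagonal Hermitian form over
`E R = R[√-7]`, `AQ` is the ring of adeles of `ℚ`, `G(𝔸) = U AQ`, `Gam` is `G(ℚ)` in `G(𝔸)`.
There is an irreducible closed invariant subspace `π` of `L²(G(ℚ) \ G(𝔸))` such that the
partitions `(5,1,1)` and `(4,3)` both belong to `𝔭ᵐ(π)`. All definitions are in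
`Pool/Agent/Lib/MP_abcfcd_nt/St.lean`.

* `G(𝔸) / G(ℚ)` is `G(ℚ) \ G(𝔸)` after the inversion: a function `F` on it is the automorphic
  function `φ g = F (g⁻¹)`, and right translation of `φ` is left translation of `F`.
* `Sl2` is the type of the `sl₂`-triples `(e, h, X)` over `ℚ`, `[h, X] = -2 X`. `t.V = V_X(𝔸)` is
  the group of the unitary matrices `v` such that `v - 1` is a sum of matrices of degrees at least
  two, which is the set of the `exp Z`, `Z` in `⨁_{i ≥ 2} 𝔤_i`; `V_X(ℚ)` is its intersection with
  `G(ℚ)`; `t.ch v = ψ (tr (X (v - 1)))` is `ψ_X`, since `tr (X Z^j) = 0` for `j ≥ 2`. Both facts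
  are proved in `Pool/Agent/Lib/MP_abcfcd_nt/N/Ex.lean` (`exp_uni`, `uni_exp`, for the equal
  definitions of the first layer). `psi` is the standard character of `𝔸 / ℚ`. (Another nontrivial
  character replaces `X` by a rational multiple.)
* `CoefAt`: some continuous function `F` whose class is in `π` has a nonzero coefficient
  `∫ φ(v g) ψ_X(v)⁻¹ dv`. (Smooth `K`-finite vectors give the same set `𝔭ᵐ(π)`: convolution with
  smooth functions on `G(𝔸)` and projection to `K`-types converge locally uniformly.)
* `pm m π` is `𝔭ᵐ(π)`, `Dom` is the dominance order, `HasType` is the Jordan type.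
-/

set_option autoImplicit false

open MeasureTheory Pool.Agent.MPabcfcd.St

/-- There is an irreducible closed invariant subspace `π` of `L²(G(ℚ) \ G(𝔸))`, where `G` is the
quasi-split unitary group in seven variables for `ℚ(√-7)`, such that `𝔭ᵐ(π)` contains the two
partitions `(5,1,1)` and `(4,3)`. -/
theorem Pool.Agent.Results.MP_abcfcd_nt.QuasiSplitU7.result :
    ∃ m : Measure (U AQ ⧸ Gam), InvRadon m ∧ ∃ π : Submodule ℂ (Lp ℂ 2 m), IsIrr m π ∧
      ∃ p q : Nat.Partition 7, p.parts = {5, 1, 1} ∧ q.parts = {4, 3} ∧ p ∈ pm m π ∧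
        q ∈ pm m π :=
  Pool.Agent.MPabcfcd.st_main
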